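import Mathlib

/-!
Infinite time Turing machines (Hamkins–Lewis) and the interface statements of the modules
M1 (fragments), M2 (transfinite simulation), M4 (diagonal real).
-/

open Order

namespace Zk62.IT

/-! ## The machine model -/

/-- A program with state set `Q`: start state, limit state, halting state and a transition
function.  It reads the three bits under the (single) head, writes three bits, and moves the
head one cell to the right (`true`) or to the left (`false`). -/
structure Prog (Q : Type) where
  start : Q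
  lim : Q
  halt : Q
  ne₁ : start ≠ lim
  ne₂ : start ≠ halt
  ne₃ : lim ≠ halt
  δ : Q → (Fin 3 → Bool) → Q × (Fin 3 → Bool) × Bool

/-- A configuration: state, head position, and the three one-way infinite binary tapes
(tape `0` input, tape `1` scratch, tape `2` output). -/
structure Cfg (Q : Type) where
  st : Q
  hd : ℕ
  tp : Fin 3 → ℕ → Bool

/-- The effect of a transition `r` (new state, written bits, direction) on head and tapes. -/
def act {S : Type} (r : S × (Fin 3 → Bool) × Bool) (hd : ℕ) (tp : Fin 3 → ℕ → Bool) :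
    ℕ × (Fin 3 → ℕ → Bool) :=
  (if r.2.2 then hd + 1 else hd - 1, fun i => Function.update (tp i) hd (r.2.1 i))

open Classical in
/-- One step of an ordinary Turing machine; a halting configuration does not change.  A head on
cell `0` that is told to move left stays on cell `0`. -/
noncomputable def Prog.step {Q : Type} (P : Prog Q) (c : Cfg Q) : Cfg Q :=
  if c.st = P.halt then c else
    let r := P.δ c.st (fun i => c.tp i c.hd)
    { st := r.1, hd := (act r c.hd c.tp).1, tp := (act r c.hd c.tp).2 }

/-- The initial configuration on input `y`. -/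
def Prog.init {Q : Type} (P : Prog Q) (y : ℕ → Bool) : Cfg Q :=
  { st := P.start, hd := 0, tp := fun i => if i = 0 then y else fun _ => false }

open Classical in
/-- The configuration at every ordinal stage.  At limit stages the head is on cell `0`, the
machine is in its limit state, and every cell carries the `limsup` of its earlier values. -/
noncomputable def Prog.run {Q : Type} (P : Prog Q) (y : ℕ → Bool) (α : Ordinal.{0}) : Cfg Q :=
  Ordinal.limitRecOn (motive := fun _ => Cfg Q) α (P.init y) (fun _ c => P.step c)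
    (fun l _ f =>
      { st := P.lim, hd := 0,
        tp := fun i n => decide (∀ β, β < l → ∃ γ, ∃ h : γ < l, β ≤ γ ∧ (f γ h).tp i n = true) })

/-- `P^y` halts. -/
def Prog.Halts {Q : Type} (P : Prog Q) (y : ℕ → Bool) : Prop :=
  ∃ α, (P.run y α).st = P.halt

/-- `P^y` halts with output `b` (the first cell of the output tape when the halting state is
reached). -/
def Prog.HaltsWith {Q : Type} (P : Prog Q) (y : ℕ → Bool) (b : Bool) : Prop :=
  ∃ α, (P.run y α).st = P.halt ∧ (∀ β < α, (P.run y β).st ≠ P.halt) ∧ (P.run y α).tp 2 0 = b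

/-- Recognizable reals. -/
def Recognizable (x : ℕ → Bool) : Prop :=
  ∃ (Q : Type) (_ : Finite Q) (P : Prog Q), ∀ y : ℕ → Bool,
    (y = x → P.HaltsWith y true) ∧ (y ≠ x → P.HaltsWith y false)

/-- Semi-recognizable reals. -/
def SemiRecognizable (x : ℕ → Bool) : Prop :=
  ∃ (Q : Type) (_ : Finite Q) (P : Prog Q), P.Halts x ∧ ∀ y : ℕ → Bool, y ≠ x → ¬ P.Halts y

/-! ## Rule systems -/

/-- `isLim α`: `α` is `0` or a limit. -/
def isLim (α : Ordinal.{0}) : Prop := ∀ β, α ≠ β + 1

/-- A literal of kind `k` at position `p`, evaluated in the current bits `X`, the input `y`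
and the limit flag `l`. Kind `0` is reserved for the end of the list. -/
def litHolds (X y : ℕ → Bool) (l : Bool) (k p : ℕ) : Prop :=
  (k = 1 ∧ X p = true) ∨ (k = 2 ∧ X p = false) ∨ (k = 3 ∧ y p = true) ∨ (k = 4 ∧ y p = false) ∨
    (k = 5 ∧ l = true) ∨ (k = 6 ∧ l = false)

/-- A rule system: rule number `m` has a target `tgt m` and literals
`(kd m i, ps m i)`, `i = 0, 1, …`, up to the first `i` with `kd m i = 0`. -/
structure RuleSys where
  tgt : ℕ → ℕ
  kd : ℕ → ℕ → ℕ
  ps : ℕ → ℕ → ℕ

/-- Rule `m` fires. -/
def RuleSys.Fires (R : RuleSys) (X y : ℕ → Bool) (l : Bool) (m : ℕ) : Prop :=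
  ∃ n, R.kd m n = 0 ∧ ∀ i < n, R.kd m i ≠ 0 ∧ litHolds X y l (R.kd m i) (R.ps m i)

/-- The rule system is primitive recursive, and every rule has finitely many literals. -/
structure RuleSys.Good (R : RuleSys) : Prop where
  tgt : Primrec R.tgt
  kd : Primrec₂ R.kd
  ps : Primrec₂ R.ps
  fin : ∀ m, ∃ n, R.kd m n = 0

open Classical in
/-- One simultaneous application of all rules. -/
noncomputable def RuleSys.F (R : RuleSys) (X y : ℕ → Bool) (l : Bool) : ℕ → Bool :=
  fun n => decide (∃ m, R.tgt m = n ∧ R.Fires X y l m)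

open Classical in
/-- The transfinite process of a rule system: start with all bits `0`, apply `F` at successor
stages (with limit flag `true` exactly when the current stage is `0` or a limit), take `limsup`
at limit stages. -/
noncomputable def RuleSys.X (R : RuleSys) (y : ℕ → Bool) (α : Ordinal.{0}) : ℕ → Bool :=
  Ordinal.limitRecOn (motive := fun _ => ℕ → Bool) α (fun _ => false)
    (fun β Z => R.F Z y (decide (isLim β)))
    (fun l _ f n => decide (∀ β, β < l → ∃ γ, ∃ h : γ < l, β ≤ γ ∧ f γ h n = true))

/-! ## Fragments (interface between M1 and M2) -/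

/-- Memory: head position and tapes. -/
abbrev Mem := ℕ × (Fin 3 → ℕ → Bool)

/-- A program fragment with exits in `E`. -/
structure Frag (E : Type) where
  Q : Type
  fin : Finite Q
  start : Q
  δ : Q → (Fin 3 → Bool) → (Q ⊕ E) × (Fin 3 → Bool) × Bool

/-- One step of a fragment. -/
def Frag.step {E : Type} (F : Frag E) (q : F.Q) (m : Mem) : (F.Q ⊕ E) × Mem :=
  let r := F.δ q (fun i => m.2 i m.1)
  (r.1, act r m.1 m.2)

/-- `F.Path I q m e m'`: started in state `q` with memory `m`, the fragment reaches the exit `e`
with memory `m'` after finitely many steps (at least one), and all memories on the way (both ends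
included) satisfy `I`. -/
inductive Frag.Path {E : Type} (F : Frag E) (I : Mem → Prop) : F.Q → Mem → E → Mem → Prop
  | exit {q : F.Q} {m : Mem} {e : E} {m' : Mem} :
      I m → F.step q m = (Sum.inr e, m') → I m' → Path F I q m e m'
  | cons {q q' : F.Q} {m m' m'' : Mem} {e : E} :
      I m → F.step q m = (Sum.inl q', m') → Path F I q' m' e m'' → Path F I q m e m''

/-- The layout of the scratch tape: blocks of length `K`; in block `n`, offset `0` carries `X n`,
offset `1` carries `B n`, offsets `2,3,4` carry the flags `fl 0, fl 1, fl 2` in block `0` (and `0`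
in the other blocks), offset `5 + i` carries register `i` in unary (`1` iff `n < ρ i`). -/
def scr (K : ℕ) (ρ : ℕ → ℕ) (X B fl : ℕ → Bool) (p : ℕ) : Bool :=
  if p % K = 0 then X (p / K)
  else if p % K = 1 then B (p / K)
  else if p % K < 5 then (decide (p / K = 0) && fl (p % K - 2))
  else decide (p / K < ρ (p % K - 5))

/-- The standard tapes. The output tape carries the left end marker. -/
def tapes (K : ℕ) (ρ : ℕ → ℕ) (X B fl y : ℕ → Bool) : Fin 3 → ℕ → Bool :=
  ![y, scr K ρ X B fl, fun p => decide (p = 0)]

/-- The invariant along a fragment: input tape `y`, `X`-track `X`, flags `fl`, `B`-track in the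
set `BB`, end marker present. (Registers and other cells are free.) -/
def Inv (K : ℕ) (X fl y : ℕ → Bool) (BB : Set (ℕ → Bool)) (m : Mem) : Prop :=
  m.2 0 = y ∧ (∀ n, m.2 1 (K * n) = X n) ∧ (∃ B ∈ BB, ∀ n, m.2 1 (K * n + 1) = B n) ∧
    (∀ i < 3, m.2 1 (2 + i) = fl i) ∧ m.2 2 0 = true

open Classical in
/-- **M1** (to be proved): for every good rule system there are a block length and a fragment that
evaluates rule number `ρ 0` (with limit flag `fl 2`), sets `B (tgt (ρ 0))` if the rule fires, and
increases register `0`. -/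
def M1Statement : Prop :=
  ∀ R : RuleSys, R.Good → ∃ K, 6 ≤ K ∧ ∃ F : Frag Unit, ∀ (ρ : ℕ → ℕ) (X B fl y : ℕ → Bool),
    ∃ ρ' : ℕ → ℕ, ρ' 0 = ρ 0 + 1 ∧
      ∃ B' : ℕ → Bool,
        B' = (if R.Fires X y (fl 2) (ρ 0) then Function.update B (R.tgt (ρ 0)) true else B) ∧
        F.Path (Inv K X fl y {B, B'}) F.start (0, tapes K ρ X B fl y) ()
          (0, tapes K ρ' X B' fl y)

/-- **M2** (to be proved from M1): the main compilation theorem. -/
def M2Statement : Prop :=
  ∀ R : RuleSys, R.Good → ∃ (Q : Type) (_ : Finite Q) (P : Prog Q), ∀ y : ℕ → Bool,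
    (P.Halts y ↔ ∃ α, R.X y (α + 1) 0 = false)

/-! ## M4: the diagonal real -/

/-- Order bit `a ⪯ b` of the code `y`. -/
def ordb (y : ℕ → Bool) (a b : ℕ) : Bool := y (Nat.pair a (2 * b))

/-- Claim bit `(a, e, j)` of the code `y`. -/
def clm (y : ℕ → Bool) (a e j : ℕ) : Bool := y (Nat.pair a (2 * Nat.pair e j + 1))

/-- Strictly below. -/
def lt' (y : ℕ → Bool) (a b : ℕ) : Prop := a ≠ b ∧ ordb y a b = true

/-- The first element mentioned by position `n`. -/
def el1 (n : ℕ) : ℕ := n.unpair.1

/-- The second element mentioned by position `n` (equal to the first one for claim bits). -/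
def el2 (n : ℕ) : ℕ := if n.unpair.2 % 2 = 0 then n.unpair.2 / 2 else n.unpair.1

open Classical in
/-- The part of `y` about elements strictly below `d`. -/
noncomputable def restr (y : ℕ → Bool) (d : ℕ) : ℕ → Bool :=
  fun n => y n && decide (lt' y (el1 n) d) && decide (lt' y (el2 n) d)

/-- Good codes for the outcome function `κ` (`κ z e 0 = true` means: program `e` halts with
output `0` on `z`). -/
structure GoodCode (κ : (ℕ → Bool) → ℕ → ℕ → Bool) (y : ℕ → Bool) : Prop where
  dom1 : ∀ a b, ordb y a b = true → ordb y a a = true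
  dom2 : ∀ a b, ordb y a b = true → ordb y b b = true
  antisymm : ∀ a b, ordb y a b = true → ordb y b a = true → a = b
  trans : ∀ a b c, ordb y a b = true → ordb y b c = true → ordb y a c = true
  total : ∀ a b, ordb y a a = true → ordb y b b = true → ordb y a b = true ∨ ordb y b a = true
  wf : WellFounded (lt' y)
  junk : ∀ a e j, clm y a e j = true → ordb y a a = true
  claims : ∀ a, ordb y a a = true → ∀ e j, clm y a e j = κ (restr y a) e j
  idx1 : ∀ a, ordb y a a = true → ∀ b, lt' y b a → clm y b a 0 = true
  idx2 : ∀ a, ordb y a a = true → clm y a a 0 = false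
  idx3 : ∀ a, ordb y a a = true → ∀ e < a,
    (∃ b, lt' y b a ∧ clm y b e 0 = false) ∨ clm y a e 0 = true

/-- Final codes. -/
def FinalCode (κ : (ℕ → Bool) → ℕ → ℕ → Bool) (y : ℕ → Bool) : Prop :=
  ∀ e, (∃ a, ordb y a a = true ∧ clm y a e 0 = false) ∨ κ y e 0 = true

/-- **M4** (to be proved). -/
def M4Statement : Prop :=
  ∀ κ : (ℕ → Bool) → ℕ → ℕ → Bool, ∃ x : ℕ → Bool, GoodCode κ x ∧ FinalCode κ x ∧
    (∀ y, GoodCode κ y → FinalCode κ y → y = x) ∧
    (∀ a, ordb x a a = true → restr x a ≠ x)

end Zk62.IT
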